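import Mathlib

/-!
# Henson graphs and sunflowerable graphs: definitions
-/

set_option autoImplicit false

namespace Pool.Agent.Q323.Henson

/-- `G` is (isomorphic to) the Henson graph `H_n`: it is countable, `K_n`-free, every finite
`K_n`-free graph is isomorphic to an induced subgraph of `G`, and `G` is ultrahomogeneous (each
embedding of a finite induced subgraph of `G` into `G` extends to an automorphism of `G`). -/
structure IsHenson (n : ℕ) {V : Type} (G : SimpleGraph V) : Prop where
  countable : Countable V
  cliqueFree : G.CliqueFree n
  universal : ∀ (m : ℕ) (F : SimpleGraph (Fin m)), F.CliqueFree n → Nonempty (F ↪g G)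
  homogeneous : ∀ (A : Set V), A.Finite → ∀ f : G.induce A ↪g G,
    ∃ φ : G ≃g G, ∀ a : A, φ a = f a

/-- A family of finite sets is a sunflower if all intersections of two distinct members are the
same set. -/
def IsSunflower {X : Type} [DecidableEq X] (Y : Set (Finset X)) : Prop :=
  ∃ r : Finset X, ∀ p ∈ Y, ∀ q ∈ Y, p ≠ q → p ∩ q = r

/-- A graph `G` is sunflowerable if for every `k` and every graph `G'` isomorphic to `G` whose
vertices are `k`-element sets some set of vertices of `G'` is a sunflower and induces a graph
isomorphic to `G`. -/
def Sunflowerable {V : Type} (G : SimpleGraph V) : Prop :=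
  ∀ (k : ℕ) (X : Type) [DecidableEq X] (M : Set (Finset X)), (∀ p ∈ M, p.card = k) →
    ∀ G' : SimpleGraph M, Nonempty (G' ≃g G) →
      ∃ M₀ : Set M, IsSunflower ((fun p : M => (p : Finset X)) '' M₀) ∧
        Nonempty (G'.induce M₀ ≃g G)

end Pool.Agent.Q323.Henson
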