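import Pool.Agent.Q323.Henson.Main

/-!
# Existence of Henson graphs
-/

set_option autoImplicit false

namespace Pool.Agent.Q323.Henson

open SimpleGraph

variable {V V₁ V₂ : Type} {n : ℕ} {G : SimpleGraph V} {G₁ : SimpleGraph V₁} {G₂ : SimpleGraph V₂}

/-- Finite partial isomorphisms. -/
def PI (G₁ : SimpleGraph V₁) (G₂ : SimpleGraph V₂) (p : Finset (V₁ × V₂)) : Prop :=
  ∀ x ∈ p, ∀ y ∈ p, (x.1 = y.1 ↔ x.2 = y.2) ∧ (G₁.Adj x.1 y.1 ↔ G₂.Adj x.2 y.2)

theorem PI.fwd (hG₁ : G₁.CliqueFree n) (hG₂ : Ext n G₂) {p : Finset (V₁ × V₂)}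
    (hp : PI G₁ G₂ p) (v : V₁) : ∃ q, p ⊆ q ∧ PI G₁ G₂ q ∧ ∃ w, (v, w) ∈ q := by
  classical
  by_cases hv : ∃ w, (v, w) ∈ p
  · exact ⟨p, subset_rfl, hp, hv⟩
  push Not at hv
  set U := (p.filter (fun x => G₁.Adj v x.1)).image Prod.snd with hU
  set W := (p.filter (fun x => ¬ G₁.Adj v x.1)).image Prod.snd with hW
  have hUm : ∀ w, w ∈ U ↔ ∃ u, (u, w) ∈ p ∧ G₁.Adj v u := by
    intro w
    simp [hU]
  have hWm : ∀ w, w ∈ W ↔ ∃ u, (u, w) ∈ p ∧ ¬ G₁.Adj v u := by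
    intro w
    simp [hW]
  have hdis : Disjoint U W := by
    rw [Finset.disjoint_left]
    intro w h1 h2
    obtain ⟨u, hu, huv⟩ := (hUm w).1 h1
    obtain ⟨u', hu', huv'⟩ := (hWm w).1 h2
    have : u = u' := (hp _ hu _ hu').1.2 rfl
    exact huv' (this ▸ huv)
  have hfree : G₂.CliqueFreeOn (U : Set V₂) (n - 1) := by
    intro t ht hcl
    -- pull back the clique
    have hpre : ∀ w ∈ t, ∃ u, (u, w) ∈ p ∧ G₁.Adj v u := fun w hw => (hUm w).1 (ht hw)
    have : Nonempty V₁ := ⟨v⟩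
    choose! g hg using hpre
    have hinj : Set.InjOn g t := by
      intro x hx y hy hxy
      exact (hp _ (hg x hx).1 _ (hg y hy).1).1.1 hxy
    have h1 : G₁.IsNClique (n - 1) (t.image g) := by
      refine ⟨?_, ?_⟩
      · intro x hx y hy hxy
        rw [Finset.mem_coe, Finset.mem_image] at hx hy
        obtain ⟨i, hi, rfl⟩ := hx
        obtain ⟨j, hj, rfl⟩ := hy
        have := (hp _ (hg i hi).1 _ (hg j hj).1).2
        rw [this]
        exact hcl.1 hi hj (by rintro rfl; exact hxy rfl)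
      · rw [Finset.card_image_of_injOn hinj]
        exact hcl.2
    have h2 := h1.insert (a := v) (by
      intro b hb
      rw [Finset.mem_image] at hb
      obtain ⟨i, hi, rfl⟩ := hb
      exact (hg i hi).2)
    by_cases hn : n = 0
    · subst hn
      exact hG₁ ∅ ⟨by simp, by simp⟩
    · rw [show n - 1 + 1 = n by omega] at h2
      exact hG₁ _ h2
  obtain ⟨w, hw1, hw2, hw3, hw4⟩ := hG₂ U W hdis hfree
  have hnew : ∀ y ∈ p, (v = y.1 ↔ w = y.2) ∧ (G₁.Adj v y.1 ↔ G₂.Adj w y.2) := by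
    rintro ⟨a, b⟩ hy
    have h1 : v ≠ a := by
      rintro rfl
      exact hv b hy
    by_cases hab : G₁.Adj v a
    · have hb : b ∈ U := (hUm b).2 ⟨a, hy, hab⟩
      refine ⟨⟨fun h => absurd h h1, ?_⟩, ⟨fun _ => hw3 b hb, fun _ => hab⟩⟩
      intro h
      exact absurd (show w ∈ U from h ▸ hb) hw1
    · have hb : b ∈ W := (hWm b).2 ⟨a, hy, hab⟩
      refine ⟨⟨fun h => absurd h h1, ?_⟩, ⟨fun h => absurd h hab, fun h => absurd h (hw4 b hb)⟩⟩
      intro h
      exact absurd (show w ∈ W from h ▸ hb) hw2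
  refine ⟨insert (v, w) p, Finset.subset_insert _ _, ?_, w, Finset.mem_insert_self _ _⟩
  intro x hx y hy
  rw [Finset.mem_insert] at hx hy
  rcases hx with rfl | hx <;> rcases hy with rfl | hy
  · simp
  · exact hnew y hy
  · have := hnew x hx
    exact ⟨by rw [eq_comm, this.1, eq_comm], by rw [G₁.adj_comm, this.2, G₂.adj_comm]⟩
  · exact hp x hx y hy

/-- Reversal. -/
theorem PI.swap {p : Finset (V₁ × V₂)} (hp : PI G₁ G₂ p) :
    PI G₂ G₁ (p.map (Equiv.prodComm _ _).toEmbedding) := by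
  intro x hx y hy
  rw [Finset.mem_map] at hx hy
  obtain ⟨a, ha, rfl⟩ := hx
  obtain ⟨b, hb, rfl⟩ := hy
  have := hp a ha b hb
  exact ⟨this.1.symm, this.2.symm⟩

theorem PI.bwd (hG₂ : G₂.CliqueFree n) (hG₁ : Ext n G₁) {p : Finset (V₁ × V₂)}
    (hp : PI G₁ G₂ p) (w : V₂) : ∃ q, p ⊆ q ∧ PI G₁ G₂ q ∧ ∃ v, (v, w) ∈ q := by
  classical
  obtain ⟨q, hq1, hq2, v, hv⟩ := hp.swap.fwd hG₂ hG₁ w
  refine ⟨q.map (Equiv.prodComm _ _).toEmbedding, ?_, hq2.swap, v, ?_⟩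
  · intro x hx
    rw [Finset.mem_map]
    exact ⟨x.swap, hq1 (by rw [Finset.mem_map]; exact ⟨x, hx, rfl⟩), by simp⟩
  · rw [Finset.mem_map]
    exact ⟨(w, v), hv, rfl⟩

/-- The preorder of partial isomorphisms. -/
abbrev PIs (G₁ : SimpleGraph V₁) (G₂ : SimpleGraph V₂) := {p : Finset (V₁ × V₂) // PI G₁ G₂ p}

/-- The partial isomorphisms defined at `v`. -/
def defAt (hG₁ : G₁.CliqueFree n) (hG₂ : Ext n G₂) (v : V₁) : Order.Cofinal (PIs G₁ G₂) where
  carrier := {p | ∃ w, (v, w) ∈ p.1}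
  isCofinal := by
    intro p
    obtain ⟨q, h1, h2, h3⟩ := p.2.fwd hG₁ hG₂ v
    exact ⟨⟨q, h2⟩, h3, h1⟩

/-- The partial isomorphisms whose range contains `w`. -/
def rngAt (hG₂ : G₂.CliqueFree n) (hG₁ : Ext n G₁) (w : V₂) : Order.Cofinal (PIs G₁ G₂) where
  carrier := {p | ∃ v, (v, w) ∈ p.1}
  isCofinal := by
    intro p
    obtain ⟨q, h1, h2, h3⟩ := p.2.bwd hG₂ hG₁ w
    exact ⟨⟨q, h2⟩, h3, h1⟩

/-- Countable `K_n`-free graphs embed into graphs with the extension property. -/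
theorem exists_embedding [Countable V₁] (hG₁ : G₁.CliqueFree n) (hG₂ : Ext n G₂) :
    Nonempty (G₁ ↪g G₂) := by
  classical
  have := Encodable.ofCountable V₁
  let p₀ : PIs G₁ G₂ := ⟨∅, by intro x hx; simp at hx⟩
  let I := Order.idealOfCofinals p₀ (fun v : V₁ => defAt hG₁ hG₂ v)
  have hI : ∀ v : V₁, ∃ w, ∃ p ∈ I, (v, w) ∈ p.1 := by
    intro v
    obtain ⟨p, hp1, hp2⟩ := Order.cofinal_meets_idealOfCofinals p₀
      (fun v : V₁ => defAt hG₁ hG₂ v) v
    obtain ⟨w, hw⟩ := hp1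
    exact ⟨w, p, hp2, hw⟩
  choose f pp hpI hpm using hI
  have key : ∀ v v', (v = v' ↔ f v = f v') ∧ (G₁.Adj v v' ↔ G₂.Adj (f v) (f v')) := by
    intro v v'
    obtain ⟨m, hmI, h1, h2⟩ := I.directed _ (hpI v) _ (hpI v')
    exact m.2 _ (h1 (hpm v)) _ (h2 (hpm v'))
  exact ⟨{ toFun := f, inj' := fun v v' h => (key v v').1.2 h,
           map_rel_iff' := fun {v v'} => (key v v').2.symm }⟩

/-- Back and forth. -/
theorem exists_iso [Countable V₁] [Countable V₂] (hG₁ : G₁.CliqueFree n) (hG₂ : Ext n G₂)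
    (hG₂' : G₂.CliqueFree n) (hG₁' : Ext n G₁) (p₀ : Finset (V₁ × V₂)) (hp₀ : PI G₁ G₂ p₀) :
    ∃ φ : G₁ ≃g G₂, ∀ x ∈ p₀, φ x.1 = x.2 := by
  classical
  have := Encodable.ofCountable V₁
  have := Encodable.ofCountable V₂
  let 𝒟 : V₁ ⊕ V₂ → Order.Cofinal (PIs G₁ G₂) := fun s =>
    Sum.elim (fun v => defAt hG₁ hG₂ v) (fun w => rngAt hG₂' hG₁' w) s
  let I := Order.idealOfCofinals (⟨p₀, hp₀⟩ : PIs G₁ G₂) 𝒟
  have hp₀I : (⟨p₀, hp₀⟩ : PIs G₁ G₂) ∈ I := Order.mem_idealOfCofinals _ _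
  have hI : ∀ v : V₁, ∃ w, ∃ p ∈ I, (v, w) ∈ p.1 := by
    intro v
    obtain ⟨p, hp1, hp2⟩ := Order.cofinal_meets_idealOfCofinals (⟨p₀, hp₀⟩ : PIs G₁ G₂) 𝒟
      (Sum.inl v)
    obtain ⟨w, hw⟩ := hp1
    exact ⟨w, p, hp2, hw⟩
  have hI' : ∀ w : V₂, ∃ v, ∃ p ∈ I, (v, w) ∈ p.1 := by
    intro w
    obtain ⟨p, hp1, hp2⟩ := Order.cofinal_meets_idealOfCofinals (⟨p₀, hp₀⟩ : PIs G₁ G₂) 𝒟
      (Sum.inr w)
    obtain ⟨v, hv⟩ := hp1
    exact ⟨v, p, hp2, hv⟩
  have key : ∀ p ∈ I, ∀ q ∈ I, ∀ x ∈ p.1, ∀ y ∈ q.1,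
      (x.1 = y.1 ↔ x.2 = y.2) ∧ (G₁.Adj x.1 y.1 ↔ G₂.Adj x.2 y.2) := by
    intro p hp q hq x hx y hy
    obtain ⟨m, hmI, h1, h2⟩ := I.directed _ hp _ hq
    exact m.2 _ (h1 hx) _ (h2 hy)
  choose f pf hfI hfm using hI
  choose g pg hgI hgm using hI'
  refine ⟨{ toFun := f, invFun := g, left_inv := ?_, right_inv := ?_, map_rel_iff' := ?_ }, ?_⟩
  · intro v
    exact (key _ (hgI (f v)) _ (hfI v) _ (hgm (f v)) _ (hfm v)).1.2 rfl
  · intro w
    exact (key _ (hfI (g w)) _ (hgI w) _ (hfm (g w)) _ (hgm w)).1.1 rfl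
  · intro v v'
    exact (key _ (hfI v) _ (hfI v') _ (hfm v) _ (hfm v')).2.symm
  · intro x hx
    exact (key _ (hfI x.1) _ hp₀I _ (hfm x.1) _ hx).1.1 rfl

theorem isHenson_of_ext [Countable V] (hG : G.CliqueFree n) (hE : Ext n G) : IsHenson n G := by
  classical
  refine ⟨inferInstance, hG, fun m F hF => exists_embedding hF hE, ?_⟩
  intro A hA f
  have hfin : Finite A := hA
  have := Fintype.ofFinite A
  let p₀ : Finset (V × V) := Finset.univ.image (fun a : A => (a.1, f a))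
  have hp₀ : PI G G p₀ := by
    intro x hx y hy
    rw [Finset.mem_image] at hx hy
    obtain ⟨a, -, rfl⟩ := hx
    obtain ⟨b, -, rfl⟩ := hy
    refine ⟨⟨fun h => ?_, fun h => ?_⟩, ?_⟩
    · have : a = b := Subtype.ext h
      rw [this]
    · have : a = b := f.injective h
      rw [this]
    · change G.Adj a.1 b.1 ↔ G.Adj (f a) (f b)
      rw [f.map_adj_iff]
      rfl
  obtain ⟨φ, hφ⟩ := exists_iso hG hE hG hE p₀ hp₀
  exact ⟨φ, fun a => hφ (a.1, f a) (by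
    rw [Finset.mem_image]
    exact ⟨a, Finset.mem_univ _, rfl⟩)⟩

/-- Each finite set of numbers occurs infinitely often in this sequence. -/
def fs (m : ℕ) : Finset ℕ := ((Encodable.decode (Nat.unpair m).1 : Option (Finset ℕ)).getD ∅)

theorem exists_fs (U : Finset ℕ) (N : ℕ) : ∃ m, N < m ∧ fs m = U := by
  refine ⟨Nat.pair (Encodable.encode U) (N + 1), ?_, ?_⟩
  · exact lt_of_lt_of_le (Nat.lt_succ_self N) (Nat.right_le_pair _ _)
  · simp [fs]

/-- A universal graph on the natural numbers. -/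
def rado : SimpleGraph ℕ where
  Adj i j := (i < j ∧ i ∈ fs j) ∨ (j < i ∧ j ∈ fs i)
  symm := ⟨fun _ _ h => h.symm⟩
  loopless := ⟨fun _ h => by simp at h⟩

/-- The vertices whose lower neighbourhood contains no clique of size `n - 1`. -/
def hvert (n : ℕ) : Set ℕ := {v | rado.CliqueFreeOn {u | u < v ∧ u ∈ fs v} (n - 1)}

/-- A Henson graph. -/
def henson (n : ℕ) : SimpleGraph (hvert n) := rado.induce (hvert n)

theorem henson_cliqueFree (hn : 1 ≤ n) : (henson n).CliqueFree n := by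
  classical
  intro s hs
  have hne : s.Nonempty := by
    rw [← Finset.card_pos, hs.2]
    omega
  obtain ⟨v, hv, hmax⟩ := s.exists_max_image (fun x => x.1) hne
  refine v.2 (t := (s.erase v).map (Function.Embedding.subtype _)) ?_ ⟨?_, ?_⟩
  · intro x hx
    rw [Finset.mem_coe, Finset.mem_map] at hx
    obtain ⟨y, hy, rfl⟩ := hx
    have hyv := Finset.ne_of_mem_erase hy
    have hys := Finset.mem_of_mem_erase hy
    have hadj : rado.Adj y.1 v.1 := hs.1 hys hv hyv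
    have hle := hmax y hys
    rcases hadj with h | h
    · exact h
    · exact absurd h.1 (not_lt.2 hle)
  · intro x hx y hy hxy
    rw [Finset.mem_coe, Finset.mem_map] at hx hy
    obtain ⟨a, ha, rfl⟩ := hx
    obtain ⟨b, hb, rfl⟩ := hy
    exact hs.1 (Finset.mem_of_mem_erase ha) (Finset.mem_of_mem_erase hb) (by
      rintro rfl; exact hxy rfl)
  · rw [Finset.card_map, Finset.card_erase_of_mem hv, hs.2]

theorem henson_ext (n : ℕ) : Ext n (henson n) := by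
  classical
  intro U W hUW hU
  set U' : Finset ℕ := U.map (Function.Embedding.subtype _) with hU'
  set W' : Finset ℕ := W.map (Function.Embedding.subtype _) with hW'
  obtain ⟨m, hm, hfs⟩ := exists_fs U' ((U' ∪ W').sup id)
  have hlt : ∀ x ∈ U' ∪ W', x < m := fun x hx => lt_of_le_of_lt (Finset.le_sup (f := id) hx) hm
  have hset : {u | u < m ∧ u ∈ fs m} = (U' : Set ℕ) := by
    ext x
    rw [hfs]
    constructor
    · exact fun h => h.2
    · exact fun h => ⟨hlt x (Finset.mem_union_left _ h), h⟩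
  have hmem : m ∈ hvert n := by
    change rado.CliqueFreeOn {u | u < m ∧ u ∈ fs m} (n - 1)
    rw [hset]
    intro t ht hcl
    have hpre : ∀ x ∈ t, ∃ y : hvert n, y ∈ U ∧ y.1 = x := by
      intro x hx
      have := ht hx
      rw [Finset.mem_coe, hU', Finset.mem_map] at this
      obtain ⟨y, hy, rfl⟩ := this
      exact ⟨y, hy, rfl⟩
    choose g hg1 hg2 using hpre
    refine hU (t := t.attach.image (fun x => g x.1 x.2)) ?_ ⟨?_, ?_⟩
    · intro y hy
      rw [Finset.mem_coe, Finset.mem_image] at hy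
      obtain ⟨x, -, rfl⟩ := hy
      exact hg1 x.1 x.2
    · intro y hy y' hy' hne
      rw [Finset.mem_coe, Finset.mem_image] at hy hy'
      obtain ⟨x, -, rfl⟩ := hy
      obtain ⟨x', -, rfl⟩ := hy'
      change rado.Adj (g x.1 x.2).1 (g x'.1 x'.2).1
      rw [hg2 x.1 x.2, hg2 x'.1 x'.2]
      refine hcl.1 x.2 x'.2 ?_
      intro h
      exact hne (by
        have : x = x' := Subtype.ext h
        rw [this])
    · rw [Finset.card_image_of_injective, Finset.card_attach, hcl.2]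
      intro x x' h
      have h' : (g x.1 x.2).1 = (g x'.1 x'.2).1 := congrArg Subtype.val h
      rw [hg2 x.1 x.2, hg2 x'.1 x'.2] at h'
      exact Subtype.ext h'
  have hUlt : ∀ u ∈ U, u.1 < m ∧ u.1 ∈ U' := by
    intro u hu
    have h1 : u.1 ∈ U' := by
      rw [hU', Finset.mem_map]
      exact ⟨u, hu, rfl⟩
    exact ⟨hlt _ (Finset.mem_union_left _ h1), h1⟩
  have hWlt : ∀ w ∈ W, w.1 < m ∧ w.1 ∉ U' := by
    intro w hw
    have h1 : w.1 ∈ W' := by
      rw [hW', Finset.mem_map]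
      exact ⟨w, hw, rfl⟩
    refine ⟨hlt _ (Finset.mem_union_right _ h1), ?_⟩
    intro h2
    rw [hU', Finset.mem_map] at h2
    obtain ⟨u, hu, huw⟩ := h2
    have : u = w := Subtype.ext huw
    exact Finset.disjoint_left.1 hUW hu (this ▸ hw)
  refine ⟨⟨m, hmem⟩, ?_, ?_, ?_, ?_⟩
  · intro h
    exact lt_irrefl _ (hUlt _ h).1
  · intro h
    exact lt_irrefl _ (hWlt _ h).1
  · intro u hu
    refine Or.inr ⟨(hUlt u hu).1, ?_⟩
    change u.1 ∈ fs m
    rw [hfs]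
    exact (hUlt u hu).2
  · intro w hw h
    rcases h with h | h
    · exact lt_asymm h.1 (hWlt w hw).1
    · have h2 : w.1 ∈ fs m := h.2
      rw [hfs] at h2
      exact (hWlt w hw).2 h2

theorem exists_isHenson (hn : 1 ≤ n) : IsHenson n (henson n) :=
  isHenson_of_ext (henson_cliqueFree hn) (henson_ext n)

end Pool.Agent.Q323.Henson
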