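import Pool.Agent.Q323.Henson.Defs

/-!
# Henson graphs are not sunflowerable
-/

set_option autoImplicit false

namespace Pool.Agent.Q323.Henson

open SimpleGraph

variable {V : Type} {n : ℕ} {G : SimpleGraph V}

/-- The extension property. -/
def Ext (n : ℕ) {V : Type} (G : SimpleGraph V) : Prop :=
  ∀ U W : Finset V, Disjoint U W → G.CliqueFreeOn (U : Set V) (n - 1) →
    ∃ v, v ∉ U ∧ v ∉ W ∧ (∀ u ∈ U, G.Adj v u) ∧ ∀ w ∈ W, ¬ G.Adj v w

/-- The one-point extension of a graph on `T` by a new vertex adjacent to the elements of `U`. -/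
def onePt (G : SimpleGraph V) (T : Finset V) (U : Finset V) : SimpleGraph (Option T) where
  Adj x y := match x, y with
    | none, none => False
    | none, some y => y.1 ∈ U
    | some x, none => x.1 ∈ U
    | some x, some y => G.Adj x.1 y.1
  symm := ⟨by
    intro x y h
    cases x <;> cases y <;> simp_all [G.adj_comm]⟩
  loopless := ⟨by
    intro x h
    cases x <;> simp_all⟩

theorem onePt_cliqueFree (hG : G.CliqueFree n) (T U : Finset V)
    (hU : G.CliqueFreeOn (U : Set V) (n - 1)) : (onePt G T U).CliqueFree n := by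
  classical
  intro s hs
  -- the other vertices form a clique
  set t : Finset V := s.eraseNone.map (Function.Embedding.subtype _) with ht
  have hmem : ∀ x, x ∈ t ↔ ∃ hx : x ∈ T, some (⟨x, hx⟩ : T) ∈ s := by
    intro x
    rw [ht, Finset.mem_map]
    constructor
    · rintro ⟨y, hy, rfl⟩
      rw [Finset.mem_eraseNone] at hy
      exact ⟨y.2, hy⟩
    · rintro ⟨hx, hs⟩
      exact ⟨⟨x, hx⟩, by rwa [Finset.mem_eraseNone], rfl⟩
  have hcl : G.IsClique (t : Set V) := by
    intro x hx y hy hxy
    obtain ⟨hx1, hx2⟩ := (hmem x).1 hx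
    obtain ⟨hy1, hy2⟩ := (hmem y).1 hy
    exact hs.1 hx2 hy2 (by simpa using hxy)
  have hcard : t.card = (s.erase none).card := by
    rw [ht, Finset.card_map, ← Finset.card_map Function.Embedding.some, Finset.map_some_eraseNone]
  by_cases h0 : (none : Option T) ∈ s
  · refine hU (t := t) ?_ ⟨hcl, ?_⟩
    · intro x hx
      obtain ⟨hx1, hx2⟩ := (hmem x).1 hx
      exact hs.1 h0 hx2 (by simp)
    · rw [hcard, Finset.card_erase_of_mem h0, hs.2]
  · refine hG t ⟨hcl, ?_⟩
    rw [hcard, Finset.erase_eq_of_notMem h0, hs.2]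

theorem IsHenson.ext (hG : IsHenson n G) : Ext n G := by
  classical
  intro U W hUW hU
  set T := U ∪ W with hT
  have hUT : U ⊆ T := Finset.subset_union_left
  have hWT : W ⊆ T := Finset.subset_union_right
  let F := onePt G T U
  have hF : F.CliqueFree n := onePt_cliqueFree hG.cliqueFree T U hU
  -- embed
  let ef := (Fintype.equivFin (Option T))
  let F' : SimpleGraph (Fin (Fintype.card (Option T))) := F.map ef.toEmbedding
  have iso : F ≃g F' := SimpleGraph.Iso.map ef F
  have hF' : F'.CliqueFree n := hF.comap ⟨iso.symm.toCopy⟩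
  obtain ⟨e0⟩ := hG.universal _ F' hF'
  let e : F ↪g G := e0.comp iso.toEmbedding
  set A : Set V := Set.range (fun x : T => e (some x)) with hA
  have hinj : Function.Injective (fun x : T => e (some x)) := by
    intro x y h
    have := e.injective h
    simpa using this
  let g := Equiv.ofInjective _ hinj
  have hg : ∀ a : A, e (some (g.symm a)) = a := by
    intro a
    have := Equiv.apply_ofInjective_symm hinj a
    exact this
  let f : G.induce A ↪g G :=
    { toFun := fun a => (g.symm a : T).1
      inj' := by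
        intro a b h
        have h1 : g.symm a = g.symm b := Subtype.ext h
        exact g.symm.injective h1
      map_rel_iff' := by
        intro a b
        change G.Adj (g.symm a).1 (g.symm b).1 ↔ G.Adj a.1 b.1
        rw [← hg a, ← hg b, e.map_adj_iff]
        rfl }
  obtain ⟨φ, hφ⟩ := hG.homogeneous A (Set.finite_range _) f
  have hφ' : ∀ x : T, φ (e (some x)) = x.1 := by
    intro x
    have h1 := hφ ⟨e (some x), ⟨x, rfl⟩⟩
    rw [h1]
    change (g.symm ⟨e (some x), _⟩ : T).1 = x.1
    have : g.symm ⟨e (some x), ⟨x, rfl⟩⟩ = x := Equiv.ofInjective_symm_apply hinj x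
    rw [this]
  have hadj : ∀ x : T, G.Adj (φ (e none)) x.1 ↔ x.1 ∈ U := by
    intro x
    rw [← hφ' x, φ.map_adj_iff, e.map_adj_iff, hφ' x]
    rfl
  have hne : ∀ x : T, φ (e none) ≠ x.1 := by
    intro x h
    rw [← hφ' x] at h
    have := e.injective (φ.injective h)
    simp at this
  refine ⟨φ (e none), ?_, ?_, ?_, ?_⟩
  · intro h
    exact hne ⟨_, hUT h⟩ rfl
  · intro h
    exact hne ⟨_, hWT h⟩ rfl
  · intro u hu
    exact (hadj ⟨u, hUT hu⟩).2 hu
  · intro w hw h
    have := (hadj ⟨w, hWT hw⟩).1 h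
    exact Finset.disjoint_left.1 hUW this hw


theorem IsHenson.nonempty (hn : 3 ≤ n) (hG : IsHenson n G) : Nonempty V := by
  obtain ⟨f⟩ := hG.universal 1 ⊥ (cliqueFree_of_card_lt (by simp; omega))
  exact ⟨f 0⟩

/-- Every vertex has neighbours outside each finite set. -/
theorem Ext.infinite_nbrs (hn : 3 ≤ n) (hG : Ext n G) (v : V) : {w | G.Adj w v}.Infinite := by
  classical
  intro hfin
  obtain ⟨w, hw1, hw2, hw3, hw4⟩ := hG {v} hfin.toFinset (by
    rw [Finset.disjoint_singleton_left]
    simp) (by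
    intro t ht h
    have h1 : t.card ≤ 1 := by
      have : t ⊆ {v} := by exact_mod_cast ht
      simpa using Finset.card_le_card this
    have := h.2
    omega)
  exact hw2 (by simpa using hw3 v (by simp))

/-- The label of a vertex. -/
def lab [DecidableEq V] (a : V → V) (v : V) : Finset (V ⊕ V) := {Sum.inl v, Sum.inr (a v)}

theorem mem_lab [DecidableEq V] (a : V → V) (v : V) (x : V ⊕ V) :
    x ∈ lab a v ↔ x = Sum.inl v ∨ x = Sum.inr (a v) := by
  simp [lab]

theorem lab_injective [DecidableEq V] (a : V → V) : Function.Injective (lab a) := by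
  intro v w h
  have h1 : Sum.inl v ∈ lab a w := by
    rw [← h, mem_lab]
    exact Or.inl rfl
  rw [mem_lab] at h1
  simpa using h1

theorem lab_card [DecidableEq V] (a : V → V) (v : V) : (lab a v).card = 2 := by
  simp [lab]

/-- The core of the argument. -/
theorem core [DecidableEq V] (hn : 3 ≤ n) (hG : IsHenson n G) (rk : V → ℕ) (hrk : Function.Injective rk)
    (a : V → V) (ha : ∀ v, G.Adj v (a v)) (hmin : ∀ v u, G.Adj v u → rk (a v) ≤ rk u)
    (κ : G ↪g G) (r : Finset (V ⊕ V))
    (hr : ∀ u w, u ≠ w → lab a (κ u) ∩ lab a (κ w) = r) : False := by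
  by_cases h : ∃ u w, u ≠ w ∧ a (κ u) = a (κ w)
  · -- the copy lies in the neighbourhood of a vertex
    obtain ⟨u, w, huw, hc⟩ := h
    set c := a (κ u) with hcdef
    have hcr : Sum.inr c ∈ r := by
      rw [← hr u w huw, Finset.mem_inter, mem_lab, mem_lab]
      exact ⟨Or.inr rfl, Or.inr (by rw [hc])⟩
    have hall : ∀ x, a (κ x) = c := by
      intro x
      obtain ⟨y, hy⟩ : ∃ y, x ≠ y := by
        by_cases hxu : x = u
        · exact ⟨w, by rw [hxu]; exact huw⟩
        · exact ⟨u, hxu⟩
      rw [← hr x y hy, Finset.mem_inter, mem_lab, mem_lab] at hcr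
      have := hcr.1
      simp at this
      exact this.symm
    have hadj : ∀ x, G.Adj (κ x) c := by
      intro x
      rw [← hall x]
      exact ha _
    obtain ⟨f⟩ := hG.universal (n - 1) ⊤ (cliqueFree_of_card_lt (by simp; omega))
    -- a clique of size `n`
    let s : Finset V := Finset.univ.image (fun i => κ (f i))
    have hs : G.IsNClique (n - 1) s := by
      refine ⟨?_, ?_⟩
      · intro x hx y hy hxy
        rw [Finset.mem_coe, Finset.mem_image] at hx hy
        obtain ⟨i, -, rfl⟩ := hx
        obtain ⟨j, -, rfl⟩ := hy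
        rw [κ.map_adj_iff, f.map_adj_iff, top_adj]
        rintro rfl
        exact hxy rfl
      · have h1 : s.card = (Finset.univ : Finset (Fin (n - 1))).card :=
          Finset.card_image_of_injective _ (κ.injective.comp f.injective)
        rw [h1]
        simp
    have := hs.insert (a := c) (by
      intro b hb
      rw [Finset.mem_image] at hb
      obtain ⟨i, -, rfl⟩ := hb
      exact (hadj _).symm)
    rw [show n - 1 + 1 = n by omega] at this
    exact hG.cliqueFree _ this
  · push Not at h
    have hinj : Function.Injective (fun x => a (κ x)) := by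
      intro x y hxy
      by_contra hne
      exact h x y hne hxy
    obtain ⟨v⟩ := hG.nonempty hn
    have hinf := hG.ext.infinite_nbrs hn v
    refine hinf ((Set.finite_Iic (rk (κ v))).of_injOn (f := fun x => rk (a (κ x))) ?_ ?_)
    · intro w hw
      exact hmin _ _ (κ.map_adj_iff.2 hw)
    · exact (hrk.comp hinj).injOn

theorem not_sunflowerable (hn : 3 ≤ n) (hG : IsHenson n G) : ¬ Sunflowerable G := by
  classical
  intro hS
  obtain ⟨rk, hrk⟩ := (show Countable V from hG.countable).exists_injective_nat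
  have hne : ∀ v, ∃ u, G.Adj v u ∧ ∀ u', G.Adj v u' → rk u ≤ rk u' := by
    intro v
    have hex : ∃ k, ∃ u, G.Adj v u ∧ rk u = k := by
      obtain ⟨u, hu⟩ := (hG.ext.infinite_nbrs hn v).nonempty
      exact ⟨rk u, u, hu.symm, rfl⟩
    obtain ⟨u, hu, huk⟩ := Nat.find_spec hex
    refine ⟨u, hu, fun u' hu' => ?_⟩
    rw [huk]
    exact Nat.find_min' hex ⟨u', hu', rfl⟩
  choose a ha hmin using hne
  let E : V ≃ Set.range (lab a) := Equiv.ofInjective _ (lab_injective a)
  let G' : SimpleGraph (Set.range (lab a)) := G.comap E.symm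
  let e : G' ≃g G := SimpleGraph.Iso.comap E.symm G
  obtain ⟨M₀, ⟨r, hr⟩, ⟨ψ⟩⟩ := hS 2 (V ⊕ V) (Set.range (lab a)) (by
    rintro _ ⟨v, rfl⟩
    exact lab_card a v) G' ⟨e⟩
  let κ : G ↪g G := (e.toEmbedding.comp (SimpleGraph.Embedding.induce M₀)).comp
    ψ.symm.toEmbedding
  have hκ : ∀ u, lab a (κ u) = ((ψ.symm u).1 : Finset (V ⊕ V)) := by
    intro u
    have : lab a (E.symm (ψ.symm u).1) = ((ψ.symm u).1 : Finset (V ⊕ V)) :=
      Equiv.apply_ofInjective_symm (lab_injective a) (ψ.symm u).1
    exact this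
  refine core hn hG rk hrk a ha hmin κ r ?_
  intro u w huw
  rw [hκ u, hκ w]
  refine hr _ ⟨_, (ψ.symm u).2, rfl⟩ _ ⟨_, (ψ.symm w).2, rfl⟩ ?_
  intro h
  exact huw (ψ.symm.injective (Subtype.ext (Subtype.ext h)))

end Pool.Agent.Q323.Henson
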